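import Pool.Agent.Lib.H14I.EngelFinal

/-!
# MP_f3e693_al: invariant orders which do not extend

For every nonabelian free group `F` (any rank at least two) and every odd prime `p` there are a
normal subgroup `H` such that `F ⧸ H` is an Engel group in which every element has `p`-power
order, and an `F`-invariant total order on `H` making `H` an o-group, which is not the
restriction of any total order on `F` invariant under left multiplication or under right
multiplication; in particular of no order making `F` an o-group.
-/

set_option autoImplicit false

universe u

namespace Pool.Agent.Results.MP_f3e693_al.NoExtension

open Pool.Agent.Lib.H14I.EngelOrder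

/-- **Invariant orders do not extend through periodic Engel quotients.** -/
theorem result (p : ℕ) (hp : p.Prime) (hodd : p ≠ 2) (α : Type u) (hα : ∃ a b : α, a ≠ b) :
    ∃ (H : Subgroup (FreeGroup α)) (_ : H.Normal),
      -- the quotient is a `p`-group (every element has `p`-power order) and Engel
      IsPGroup p (FreeGroup α ⧸ H) ∧ IsEngelGroup (FreeGroup α ⧸ H) ∧
      -- an `F`-invariant total order on `H` making `H` an o-group
      ∃ le : H → H → Prop, IsOGroupOrder le ∧ ConjInvariant H le ∧
        -- which no one-sided invariant total order on `F` extends
        ∀ le' : FreeGroup α → FreeGroup α → Prop, IsTotalOrder le' →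
          (LeftInvariant le' ∨ RightInvariant le') → ¬ Extends H le' le :=
  haveI : Nontrivial α := ⟨hα⟩
  main hp hodd α

end Pool.Agent.Results.MP_f3e693_al.NoExtension
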